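import Pool.Agent.W523.LV.Stmts
import Pool.Agent.H993R3.ET.Cells

/-!
# LV-CELLS: the sum over complete cells with boundary masses
(adapted from `Pool.Agent.H993R3.ET.Cells`)
-/

set_option autoImplicit false

open Finset

namespace Pool.Agent.W395.LV

open Pool.Agent.H96R3.BC Pool.Agent.H394R3.ET Pool.Agent.W523.LV
open Pool.Agent.H993R3.ET (vv_pos UU_eq vv_mem UU_mono one_le_UU cf_prime abs_cf_le PP PP_natDegree
  PP_eval NN_le UU_ratio)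

/-- the moment identity -/
theorem moment2 (Q j₀ : ℕ) (C : ℝ) (a0 : ℕ → ℝ) (w : ℕ → ℝ → ℝ) (hQ : 1 ≤ Q) (hj₀ : 1 ≤ j₀) (hw : Wts Q j₀ C a0 w)
    (s x : ℕ → ℝ) (f : ℝ → ℝ) (hs : Frc2 Q j₀ s) (ho : Out2 Q j₀ w s x f) (j : ℕ) (hj : j₀ ≤ j)
    (P : Polynomial ℝ) (hP : P.natDegree < 4 * Q + 4) :
    ∑ n ∈ CC Q j, cf (fun p => s p + x p) n * ((vv Q j₀ n) ^ 2 * P.eval (vv Q j₀ n)) =
      (∫ u in (UU j₀ j)..(UU j₀ (j + 1)), f u * P.eval u) +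
        (BB Q j₀ s (j + 1) * P.eval (UU j₀ (j + 1)) - BB Q j₀ s j * P.eval (UU j₀ j)) := by
  set y : ℕ → ℝ := fun p => s p + x p with hy
  have hUU : UU j₀ j ≤ UU j₀ (j + 1) := UU_mono j₀ (Nat.le_succ j)
  have hfc : Continuous f := ho.sol.cont
  -- split into primes and composites
  have hsplit : ∑ n ∈ CC Q j, cf y n * ((vv Q j₀ n) ^ 2 * P.eval (vv Q j₀ n)) =
      ∑ p ∈ (CC Q j).filter Nat.Prime, cf y p * ((vv Q j₀ p) ^ 2 * P.eval (vv Q j₀ p)) +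
      ∑ n ∈ KC Q j, cf y n * ((vv Q j₀ n) ^ 2 * P.eval (vv Q j₀ n)) := by
    unfold KC
    rw [Finset.sum_filter_add_sum_filter_not]
  -- the forcing part
  have hsp : ∑ p ∈ (CC Q j).filter Nat.Prime, s p * (vv Q j₀ p) ^ 2 * P.eval (vv Q j₀ p) =
      BB Q j₀ s (j + 1) * P.eval (UU j₀ (j + 1)) - BB Q j₀ s j * P.eval (UU j₀ j) := by
    rw [← hs.mom j hj P hP, add_sub_cancel_right, Finset.sum_filter]
    refine Finset.sum_congr rfl fun p _ => ?_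
    split_ifs with hp
    · rfl
    · have : s p = 0 := by
        by_contra h
        exact hp (hs.supp p h).1
      rw [this]; ring
  -- the response part
  have hwp : ∀ u : ℝ, UU j₀ j ≤ u → u ≤ UU j₀ (j + 1) →
      ∑ p ∈ (CC Q j).filter Nat.Prime, w p u * P.eval (vv Q j₀ p) = P.eval u := by
    intro u hu1 hu2
    rw [← hw.mom j hj u hu1 hu2 P hP, Finset.sum_filter]
    refine Finset.sum_congr rfl fun p _ => ?_
    split_ifs with hp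
    · rfl
    · have : w p u = 0 := by
        by_contra h
        exact hp (hw.supp p u h).1
      rw [this]; ring
  have hxp : ∑ p ∈ (CC Q j).filter Nat.Prime, x p * (vv Q j₀ p) ^ 2 * P.eval (vv Q j₀ p) =
      (∫ u in (UU j₀ j)..(UU j₀ (j + 1)), f u * P.eval u) -
        ∑ n ∈ KC Q j, cf y n * ((vv Q j₀ n) ^ 2 * P.eval (vv Q j₀ n)) := by
    have h1 : ∀ p ∈ (CC Q j).filter Nat.Prime, x p * (vv Q j₀ p) ^ 2 * P.eval (vv Q j₀ p) =
        (∫ u in (UU j₀ j)..(UU j₀ (j + 1)), f u * w p u * P.eval (vv Q j₀ p)) -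
          ∑ n ∈ KC Q j, cf y n * (vv Q j₀ n) ^ 2 * w p (vv Q j₀ n) * P.eval (vv Q j₀ p) := by
      intro p hp
      rw [Finset.mem_filter] at hp
      have hpp := ho.resp j hj p hp.1 hp.2
      have hv : 0 < vv Q j₀ p := vv_pos Q j₀ p hj₀ hp.2.one_lt.le
      rw [hpp, div_mul_cancel₀ _ (by positivity), sub_mul, intervalIntegral.integral_mul_const, Finset.sum_mul]
    rw [Finset.sum_congr rfl h1, Finset.sum_sub_distrib]
    congr 1
    · rw [← intervalIntegral.integral_finsetSum]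
      · apply intervalIntegral.integral_congr
        intro u hu
        rw [Set.uIcc_of_le hUU] at hu
        simp only
        rw [← hwp u hu.1 hu.2, Finset.mul_sum]
        refine Finset.sum_congr rfl fun p _ => ?_
        ring
      · intro p _
        exact ((hfc.mul (hw.cont p)).mul continuous_const).intervalIntegrable _ _
    · rw [Finset.sum_comm]
      refine Finset.sum_congr rfl fun n hn => ?_
      unfold KC at hn
      rw [Finset.mem_filter] at hn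
      have hv := vv_mem Q j₀ j n hQ hj₀ hn.1
      rw [← hwp _ hv.1 hv.2, Finset.mul_sum, Finset.mul_sum]
      refine Finset.sum_congr rfl fun p _ => ?_
      ring
  rw [hsplit]
  have hprime : ∑ p ∈ (CC Q j).filter Nat.Prime, cf y p * ((vv Q j₀ p) ^ 2 * P.eval (vv Q j₀ p)) =
      ∑ p ∈ (CC Q j).filter Nat.Prime, s p * (vv Q j₀ p) ^ 2 * P.eval (vv Q j₀ p) +
      ∑ p ∈ (CC Q j).filter Nat.Prime, x p * (vv Q j₀ p) ^ 2 * P.eval (vv Q j₀ p) := by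
    rw [← Finset.sum_add_distrib]
    refine Finset.sum_congr rfl fun p hp => ?_
    rw [Finset.mem_filter] at hp
    rw [cf_prime y p hp.2]
    simp only [hy]
    ring
  rw [hprime, hsp, hxp]
  ring

/-- bound of one cell -/
theorem cell_bd2 (Q j₀ : ℕ) (C : ℝ) (a0 : ℕ → ℝ) (w : ℕ → ℝ → ℝ) (hQ : 1 ≤ Q) (hj₀ : 1 ≤ j₀) (hw : Wts Q j₀ C a0 w)
    (s x : ℕ → ℝ) (f : ℝ → ℝ) (hs : Frc2 Q j₀ s) (ho : Out2 Q j₀ w s x f) (j : ℕ) (hj : j₀ ≤ j) :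
    |∑ n ∈ CC Q j, cf (fun p => s p + x p) n + BB Q j₀ s j / (UU j₀ j) ^ 2 -
        BB Q j₀ s (j + 1) / (UU j₀ (j + 1)) ^ 2| ≤
      (4 * 4 ^ Q + 4 * (j₀ : ℝ) ^ Q * j₀ * 2 ^ (3 * Q + 2)) * (Real.sqrt j) ^ (3 * Q - 1) := by
  set y : ℕ → ℝ := fun p => s p + x p with hy
  have hj1 : 1 ≤ j := hj₀.trans hj
  have hjr : (1:ℝ) ≤ j := by exact_mod_cast hj1
  have hj0r : (1:ℝ) ≤ j₀ := by exact_mod_cast hj₀
  have hUU : UU j₀ j ≤ UU j₀ (j + 1) := UU_mono j₀ (Nat.le_succ j)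
  have hc1 : 1 ≤ UU j₀ j := one_le_UU j₀ j hj₀ hj
  have hc : 0 < UU j₀ j := by linarith
  have hrat := UU_ratio j₀ j hj₀ hj
  have hfc : Continuous f := ho.sol.cont
  have hy1 : ∀ p : ℕ, p.Prime → |y p| ≤ 1 := fun p hp => ho.sol.small p hp
  set c := UU j₀ j with hcdef
  set m := 2 * Q + 2 with hm
  have hz : ∀ u : ℝ, c ≤ u → u ≤ UU j₀ (j + 1) → |1 - u / c| ≤ 1 / (j : ℝ) := by
    intro u h1 h2
    have h3 : 1 ≤ u / c := by rw [one_le_div hc]; exact h1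
    have h4 : u / c ≤ 1 + 1 / (j : ℝ) := by
      rw [div_le_iff₀ hc]; linarith
    rw [abs_le]; constructor <;> linarith
  have hz1 : ∀ u : ℝ, c ≤ u → u ≤ UU j₀ (j + 1) → |(1 - u / c) ^ m| ≤ (1 / (j : ℝ)) ^ m := by
    intro u h1 h2
    rw [abs_pow]
    exact pow_le_pow_left₀ (abs_nonneg _) (hz u h1 h2) _
  have hjm : (1 / (j : ℝ)) ^ m ≤ 1 := by
    apply pow_le_one₀ (by positivity)
    rw [div_le_one (by linarith)]; exact hjr
  -- decomposition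
  have hmo := moment2 Q j₀ C a0 w hQ hj₀ hw s x f hs ho j hj (PP c m) (PP_natDegree c Q)
  have hdec0 : ∑ n ∈ CC Q j, cf y n = (∑ n ∈ CC Q j, cf y n * ((vv Q j₀ n) ^ 2 * (PP c m).eval (vv Q j₀ n))) +
      ∑ n ∈ CC Q j, cf y n * (1 - (1 - (1 - vv Q j₀ n / c) ^ m) ^ 2) := by
    rw [← Finset.sum_add_distrib]
    refine Finset.sum_congr rfl fun n _ => ?_
    rw [PP_eval c _ m hc]
    ring
  have hUpos : 0 < UU j₀ (j + 1) := lt_of_lt_of_le hc hUU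
  have hPc : (PP c m).eval c = 1 / c ^ 2 := by
    have h4 := PP_eval c c m hc
    rw [div_self hc.ne', sub_self, zero_pow (by omega : m ≠ 0), sub_zero, one_pow] at h4
    rw [eq_div_iff (by positivity), mul_comm]
    exact h4
  have hPU : (PP c m).eval (UU j₀ (j + 1)) =
      (1 - (1 - UU j₀ (j + 1) / c) ^ m) ^ 2 / UU j₀ (j + 1) ^ 2 := by
    rw [eq_div_iff (by positivity), mul_comm]
    exact PP_eval c _ m hc
  have hdec : ∑ n ∈ CC Q j, cf y n + BB Q j₀ s j / c ^ 2 - BB Q j₀ s (j + 1) / (UU j₀ (j + 1)) ^ 2 =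
      (∫ u in c..(UU j₀ (j + 1)), f u * (PP c m).eval u) +
      (∑ n ∈ CC Q j, cf y n * (1 - (1 - (1 - vv Q j₀ n / c) ^ m) ^ 2) -
        BB Q j₀ s (j + 1) / (UU j₀ (j + 1)) ^ 2 * (1 - (1 - (1 - UU j₀ (j + 1) / c) ^ m) ^ 2)) := by
    rw [hdec0, hmo, hPc, hPU]
    ring
  -- the error sum
  have hE1 : |∑ n ∈ CC Q j, cf y n * (1 - (1 - (1 - vv Q j₀ n / c) ^ m) ^ 2)| ≤ 3 * 4 ^ Q := by
    have h1 : ∀ n ∈ CC Q j, |cf y n * (1 - (1 - (1 - vv Q j₀ n / c) ^ m) ^ 2)| ≤ 3 * (1 / (j : ℝ)) ^ m := by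
      intro n hn
      have hv := vv_mem Q j₀ j n hQ hj₀ hn
      have h2 := hz1 _ hv.1 hv.2
      set z := (1 - vv Q j₀ n / c) ^ m
      rw [abs_mul]
      have h3 : |1 - (1 - z) ^ 2| ≤ 3 * (1 / (j : ℝ)) ^ m := by
        have : 1 - (1 - z) ^ 2 = z * (2 - z) := by ring
        rw [this, abs_mul]
        have h4 : |2 - z| ≤ 3 := by
          have := abs_le.mp (h2.trans hjm)
          rw [abs_le]; constructor <;> linarith
        calc |z| * |2 - z| ≤ (1 / (j : ℝ)) ^ m * 3 := by gcongr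
          _ = _ := by ring
      calc |cf y n| * |1 - (1 - z) ^ 2| ≤ 1 * (3 * (1 / (j : ℝ)) ^ m) := by
            gcongr
            exact abs_cf_le y hy1 n
        _ = _ := by ring
    have hcard : ((CC Q j).card : ℝ) ≤ (4:ℝ) ^ Q * (j : ℝ) ^ (2 * Q) := by
      have h1 : (CC Q j).card ≤ (j + 1) ^ (2 * Q) := by
        unfold CC
        rw [Nat.card_Ioc]; exact Nat.sub_le _ _
      have h2 : ((CC Q j).card : ℝ) ≤ ((j : ℝ) + 1) ^ (2 * Q) := by exact_mod_cast h1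
      calc ((CC Q j).card : ℝ) ≤ ((j : ℝ) + 1) ^ (2 * Q) := h2
        _ ≤ (2 * (j : ℝ)) ^ (2 * Q) := by gcongr; linarith
        _ = (4:ℝ) ^ Q * (j : ℝ) ^ (2 * Q) := by
            rw [mul_pow, pow_mul 2 2 Q]; norm_num
    calc |∑ n ∈ CC Q j, cf y n * (1 - (1 - (1 - vv Q j₀ n / c) ^ m) ^ 2)|
        ≤ ∑ n ∈ CC Q j, |cf y n * (1 - (1 - (1 - vv Q j₀ n / c) ^ m) ^ 2)| := Finset.abs_sum_le_sum_abs _ _
      _ ≤ ∑ n ∈ CC Q j, 3 * (1 / (j : ℝ)) ^ m := Finset.sum_le_sum h1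
      _ = (CC Q j).card * (3 * (1 / (j : ℝ)) ^ m) := by rw [Finset.sum_const, nsmul_eq_mul]
      _ ≤ ((4:ℝ) ^ Q * (j : ℝ) ^ (2 * Q)) * (3 * (1 / (j : ℝ)) ^ m) := by gcongr
      _ = 3 * 4 ^ Q * ((1 / (j : ℝ)) ^ 2) := by
          rw [hm, pow_add, one_div, inv_pow, inv_pow]
          field_simp
      _ ≤ 3 * 4 ^ Q * 1 := by
          gcongr
          apply pow_le_one₀ (by positivity)
          rw [div_le_one (by linarith)]; exact hjr
      _ = _ := by ring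
  -- the boundary mass
  have hE3 : |BB Q j₀ s (j + 1) / (UU j₀ (j + 1)) ^ 2 *
      (1 - (1 - (1 - UU j₀ (j + 1) / c) ^ m) ^ 2)| ≤ 4 ^ Q := by
    have h2 := hz1 _ hUU le_rfl
    set z := (1 - UU j₀ (j + 1) / c) ^ m
    have h3 : |1 - (1 - z) ^ 2| ≤ 3 * (1 / (j : ℝ)) ^ m := by
      have : 1 - (1 - z) ^ 2 = z * (2 - z) := by ring
      rw [this, abs_mul]
      have h4 : |2 - z| ≤ 3 := by
        have := abs_le.mp (h2.trans hjm)
        rw [abs_le]; constructor <;> linarith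
      calc |z| * |2 - z| ≤ (1 / (j : ℝ)) ^ m * 3 := by gcongr
        _ = _ := by ring
    have h4 : |BB Q j₀ s (j + 1) / (UU j₀ (j + 1)) ^ 2| ≤ 1 / 4 * ((j : ℝ) + 1) ^ (2 * Q - 1) := by
      rw [abs_div, abs_of_nonneg (by positivity : (0 : ℝ) ≤ UU j₀ (j + 1) ^ 2),
        div_le_iff₀ (by positivity)]
      have := hs.bb (j + 1) (by omega)
      push_cast at this
      exact this
    have h5 : ((j : ℝ) + 1) ^ (2 * Q - 1) ≤ (4 : ℝ) ^ Q * (j : ℝ) ^ (2 * Q) := by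
      calc ((j : ℝ) + 1) ^ (2 * Q - 1) ≤ ((j : ℝ) + 1) ^ (2 * Q) :=
            pow_le_pow_right₀ (by linarith) (by omega)
        _ ≤ (2 * (j : ℝ)) ^ (2 * Q) := by gcongr; linarith
        _ = (4:ℝ) ^ Q * (j : ℝ) ^ (2 * Q) := by
            rw [mul_pow, pow_mul 2 2 Q]; norm_num
    rw [abs_mul]
    calc |BB Q j₀ s (j + 1) / (UU j₀ (j + 1)) ^ 2| * |1 - (1 - z) ^ 2|
        ≤ (1 / 4 * ((4 : ℝ) ^ Q * (j : ℝ) ^ (2 * Q))) * (3 * (1 / (j : ℝ)) ^ m) := by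
          refine mul_le_mul (h4.trans ?_) h3 (abs_nonneg _) (by positivity)
          linarith
      _ = 3 / 4 * 4 ^ Q * ((1 / (j : ℝ)) ^ 2) := by
          have hj0 : (j : ℝ) ≠ 0 := by linarith
          have h6 : (1 / (j : ℝ)) ^ (2 * Q) = ((j : ℝ) ^ (2 * Q))⁻¹ := by
            rw [one_div, inv_pow]
          rw [hm, pow_add, h6]
          field_simp
      _ ≤ 3 / 4 * 4 ^ Q * 1 := by
          gcongr
          apply pow_le_one₀ (by positivity)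
          rw [div_le_one (by linarith)]; exact hjr
      _ ≤ 4 ^ Q := by
          have : (0 : ℝ) ≤ 4 ^ Q := by positivity
          linarith
  have hE13 : |∑ n ∈ CC Q j, cf y n * (1 - (1 - (1 - vv Q j₀ n / c) ^ m) ^ 2) -
        BB Q j₀ s (j + 1) / (UU j₀ (j + 1)) ^ 2 * (1 - (1 - (1 - UU j₀ (j + 1) / c) ^ m) ^ 2)| ≤
      4 * 4 ^ Q := by
    refine (abs_sub _ _).trans ?_
    linarith
  -- the integral
  have hsj : 1 ≤ Real.sqrt j := by rw [Real.one_le_sqrt]; exact hjr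
  have hE2 : |∫ u in c..(UU j₀ (j + 1)), f u * (PP c m).eval u| ≤
      4 * (j₀ : ℝ) ^ Q * j₀ * 2 ^ (3 * Q + 2) * (Real.sqrt j) ^ (3 * Q - 1) := by
    have h1 : ∀ u ∈ Set.uIoc c (UU j₀ (j + 1)), ‖f u * (PP c m).eval u‖ ≤
        (j₀ : ℝ) ^ Q * UU j₀ (j + 1) ^ (3 * Q + 2) * (4 / c ^ 2) := by
      intro u hu
      rw [Set.uIoc_of_le hUU] at hu
      have hu1 : c ≤ u := hu.1.le
      have hu0 : 0 < u := lt_of_lt_of_le hc hu1
      rw [Real.norm_eq_abs, abs_mul]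
      have h2 : |f u| ≤ (j₀ : ℝ) ^ Q * UU j₀ (j + 1) ^ (3 * Q + 2) := by
        refine (ho.fbd u hu0.le).trans ?_
        gcongr
        exact NN_le Q u _ (hc1.trans hu1) hu.2
      have h3 : |(PP c m).eval u| ≤ 4 / c ^ 2 := by
        have h4 := PP_eval c u m hc
        have h5 : (PP c m).eval u = (1 - (1 - u / c) ^ m) ^ 2 / u ^ 2 := by
          rw [← h4]; field_simp
        have h6 := abs_le.mp ((hz1 u hu1 hu.2).trans hjm)
        rw [h5, abs_of_nonneg (by positivity)]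
        have h7 : (1 - (1 - u / c) ^ m) ^ 2 ≤ 4 := by nlinarith
        gcongr
      exact mul_le_mul h2 h3 (abs_nonneg _) ((abs_nonneg _).trans h2)
    have h2 := intervalIntegral.norm_integral_le_of_norm_le_const h1
    rw [Real.norm_eq_abs] at h2
    refine h2.trans ?_
    rw [abs_of_nonneg (by linarith)]
    -- numbers
    have hc2 : c ^ 2 = (j : ℝ) / j₀ := by
      rw [hcdef]; unfold UU; rw [Real.sq_sqrt (by positivity)]
    have hsq : Real.sqrt j ^ 2 = j := Real.sq_sqrt (by positivity)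
    have hcle : c ≤ Real.sqrt j := by
      rw [hcdef]; unfold UU
      apply Real.sqrt_le_sqrt
      exact div_le_self (by positivity) hj0r
    have h5 : UU j₀ (j + 1) ≤ 2 * Real.sqrt j := by
      calc UU j₀ (j + 1) ≤ (1 + 1 / (j : ℝ)) * c := hrat
        _ ≤ 2 * Real.sqrt j := by
            have : 1 / (j : ℝ) ≤ 1 := by rw [div_le_one (by linarith)]; exact hjr
            apply mul_le_mul (by linarith) hcle hc.le (by norm_num)
    have h6 : UU j₀ (j + 1) - c ≤ 1 / Real.sqrt j := by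
      have : UU j₀ (j + 1) - c ≤ 1 / (j : ℝ) * c := by linarith [hrat]
      refine this.trans ?_
      calc 1 / (j : ℝ) * c ≤ 1 / (j : ℝ) * Real.sqrt j := by gcongr
        _ = 1 / Real.sqrt j := by
            nth_rewrite 1 [← hsq]
            field_simp
    have h7 : (4 / c ^ 2) = 4 * j₀ / Real.sqrt j ^ 2 := by
      rw [hc2, hsq]; field_simp
    obtain ⟨e, he⟩ : ∃ e, 3 * Q - 1 = e ∧ 3 * Q + 2 = e + 3 := ⟨3 * Q - 1, rfl, by omega⟩
    rw [he.1, he.2]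
    rw [he.2] at *
    calc (j₀ : ℝ) ^ Q * UU j₀ (j + 1) ^ (e + 3) * (4 / c ^ 2) * (UU j₀ (j + 1) - c)
        ≤ (j₀ : ℝ) ^ Q * (2 * Real.sqrt j) ^ (e + 3) * (4 / c ^ 2) * (1 / Real.sqrt j) := by
          have : 0 ≤ UU j₀ (j + 1) := Real.sqrt_nonneg _
          gcongr
      _ = 4 * (j₀ : ℝ) ^ Q * j₀ * 2 ^ (e + 3) * (Real.sqrt j) ^ e := by
          rw [h7, mul_pow, pow_add (Real.sqrt j) e 3]
          have : Real.sqrt j ≠ 0 := by positivity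
          field_simp
  rw [hdec]
  have hone : (1:ℝ) ≤ (Real.sqrt j) ^ (3 * Q - 1) := one_le_pow₀ hsj
  calc |_ + _| ≤ _ := abs_add_le _ _
    _ ≤ 4 * (j₀ : ℝ) ^ Q * j₀ * 2 ^ (3 * Q + 2) * (Real.sqrt j) ^ (3 * Q - 1) + 4 * 4 ^ Q := add_le_add hE2 hE13
    _ ≤ 4 * (j₀ : ℝ) ^ Q * j₀ * 2 ^ (3 * Q + 2) * (Real.sqrt j) ^ (3 * Q - 1) +
        4 * 4 ^ Q * (Real.sqrt j) ^ (3 * Q - 1) := by
        have : (0:ℝ) ≤ 4 * 4 ^ Q := by positivity
        nlinarith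
    _ = _ := by ring

/-- all cells -/
theorem all_bd2 (Q j₀ : ℕ) (C : ℝ) (a0 : ℕ → ℝ) (w : ℕ → ℝ → ℝ) (hQ : 1 ≤ Q) (hj₀ : 1 ≤ j₀) (hw : Wts Q j₀ C a0 w)
    (s x : ℕ → ℝ) (f : ℝ → ℝ) (hs : Frc2 Q j₀ s) (ho : Out2 Q j₀ w s x f) (J : ℕ) (hJ : j₀ ≤ J) :
    |∑ n ∈ Icc 1 (J ^ (2 * Q)), cf (fun p => s p + x p) n - BB Q j₀ s J / (UU j₀ J) ^ 2| ≤
      (j₀ : ℝ) ^ (2 * Q) + (J - j₀) * ((4 * 4 ^ Q + 4 * (j₀ : ℝ) ^ Q * j₀ * 2 ^ (3 * Q + 2)) * (Real.sqrt J) ^ (3 * Q - 1)) := by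
  set y : ℕ → ℝ := fun p => s p + x p with hy
  have hy1 : ∀ p : ℕ, p.Prime → |y p| ≤ 1 := fun p hp => ho.sol.small p hp
  induction J, hJ using Nat.le_induction with
  | base =>
    have hB0 : BB Q j₀ s j₀ = 0 := by
      unfold BB
      refine Finset.sum_eq_zero fun n hn => ?_
      have h1 : s n = 0 := by
        by_contra h
        have h2 := (hs.supp n h).2
        rw [Finset.mem_Icc] at hn
        omega
      rw [h1, zero_mul]
    rw [sub_self, zero_mul, add_zero, hB0, zero_div, sub_zero]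
    calc |∑ n ∈ Icc 1 (j₀ ^ (2 * Q)), cf y n| ≤ ∑ n ∈ Icc 1 (j₀ ^ (2 * Q)), |cf y n| := Finset.abs_sum_le_sum_abs _ _
      _ ≤ ∑ n ∈ Icc 1 (j₀ ^ (2 * Q)), (1:ℝ) := Finset.sum_le_sum fun n _ => abs_cf_le y hy1 n
      _ = (j₀ : ℝ) ^ (2 * Q) := by simp
  | succ J hJ ih =>
    have hsum : ∑ n ∈ Icc 1 ((J + 1) ^ (2 * Q)), cf y n = ∑ n ∈ Icc 1 (J ^ (2 * Q)), cf y n + ∑ n ∈ CC Q J, cf y n := by
      have hle : J ^ (2 * Q) ≤ (J + 1) ^ (2 * Q) := Nat.pow_le_pow_left (Nat.le_succ J) _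
      have h1 : 1 ≤ J ^ (2 * Q) := Nat.one_le_pow _ _ (lt_of_lt_of_le hj₀ hJ)
      have hun : Icc 1 ((J + 1) ^ (2 * Q)) = Icc 1 (J ^ (2 * Q)) ∪ CC Q J := by
        ext n
        simp only [CC, Finset.mem_Icc, Finset.mem_union, Finset.mem_Ioc]
        omega
      rw [hun, Finset.sum_union]
      rw [Finset.disjoint_left]
      intro n hn hn2
      simp only [CC, Finset.mem_Icc, Finset.mem_Ioc] at hn hn2
      omega
    have hsplit2 : ∑ n ∈ Icc 1 ((J + 1) ^ (2 * Q)), cf y n - BB Q j₀ s (J + 1) / (UU j₀ (J + 1)) ^ 2 =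
        (∑ n ∈ Icc 1 (J ^ (2 * Q)), cf y n - BB Q j₀ s J / (UU j₀ J) ^ 2) +
        (∑ n ∈ CC Q J, cf y n + BB Q j₀ s J / (UU j₀ J) ^ 2 -
          BB Q j₀ s (J + 1) / (UU j₀ (J + 1)) ^ 2) := by
      rw [hsum]
      ring
    rw [hsplit2]
    have hcell := cell_bd2 Q j₀ C a0 w hQ hj₀ hw s x f hs ho J hJ
    set K₂ : ℝ := 4 * 4 ^ Q + 4 * (j₀ : ℝ) ^ Q * j₀ * 2 ^ (3 * Q + 2) with hK
    have hK0 : 0 ≤ K₂ := by positivity
    have hmono : (Real.sqrt (J : ℝ)) ^ (3 * Q - 1) ≤ (Real.sqrt ((J + 1 : ℕ) : ℝ)) ^ (3 * Q - 1) := by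
      gcongr
      linarith
    have hJr : (j₀ : ℝ) ≤ J := by exact_mod_cast hJ
    calc |_ + _| ≤ _ := abs_add_le _ _
      _ ≤ ((j₀ : ℝ) ^ (2 * Q) + (J - j₀) * (K₂ * (Real.sqrt J) ^ (3 * Q - 1))) + K₂ * (Real.sqrt J) ^ (3 * Q - 1) :=
          add_le_add ih hcell
      _ = (j₀ : ℝ) ^ (2 * Q) + ((J + 1 : ℝ) - j₀) * (K₂ * (Real.sqrt J) ^ (3 * Q - 1)) := by ring
      _ ≤ (j₀ : ℝ) ^ (2 * Q) + ((J + 1 : ℝ) - j₀) * (K₂ * (Real.sqrt ((J + 1 : ℕ) : ℝ)) ^ (3 * Q - 1)) := by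
          have : (0:ℝ) ≤ (J + 1 : ℝ) - j₀ := by linarith
          gcongr
      _ = _ := by push_cast; ring

theorem taskCells2 : TaskCells2 := by
  refine ⟨1, fun Q hQ C _ j₀ hj₀ => ⟨(j₀ : ℝ) ^ (2 * Q) + (4 * 4 ^ Q + 4 * (j₀ : ℝ) ^ Q * j₀ * 2 ^ (3 * Q + 2)), by positivity, ?_⟩⟩
  intro a0 w hw s x f hs ho J hJ
  have hj1 : 1 ≤ j₀ := by omega
  refine (all_bd2 Q j₀ C a0 w hQ hj1 hw s x f hs ho J hJ).trans ?_
  have hJ1 : (1:ℝ) ≤ J := by exact_mod_cast hj1.trans hJ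
  have hsJ : 1 ≤ Real.sqrt J := by rw [Real.one_le_sqrt]; exact hJ1
  have hj0r : (0:ℝ) ≤ j₀ := by positivity
  obtain ⟨e, he⟩ : ∃ e, 3 * Q - 1 = e ∧ 3 * Q = e + 1 := ⟨3 * Q - 1, rfl, by omega⟩
  have heq : (J : ℝ) ^ ((3 * (Q : ℝ) + 1) / 2) = J * (Real.sqrt J) ^ (3 * Q - 1) := by
    have h1 : (3 * (Q : ℝ)) = (e : ℝ) + 1 := by exact_mod_cast he.2
    rw [he.1, h1, Real.sqrt_eq_rpow, ← Real.rpow_natCast, ← Real.rpow_mul (by positivity)]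
    nth_rewrite 2 [← Real.rpow_one (J : ℝ)]
    rw [← Real.rpow_add (by positivity)]
    congr 1
    ring
  rw [heq]
  set K₂ : ℝ := 4 * 4 ^ Q + 4 * (j₀ : ℝ) ^ Q * j₀ * 2 ^ (3 * Q + 2) with hK
  have hK0 : 0 ≤ K₂ := by positivity
  have hone : (1:ℝ) ≤ (Real.sqrt J) ^ (3 * Q - 1) := one_le_pow₀ hsJ
  have hA : (1:ℝ) ≤ J * (Real.sqrt J) ^ (3 * Q - 1) := one_le_mul_of_one_le_of_one_le hJ1 hone
  have hB : ((J : ℝ) - j₀) * (K₂ * (Real.sqrt J) ^ (3 * Q - 1)) ≤ J * (K₂ * (Real.sqrt J) ^ (3 * Q - 1)) := by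
    gcongr
    linarith
  have hC : (j₀ : ℝ) ^ (2 * Q) ≤ (j₀ : ℝ) ^ (2 * Q) * (J * (Real.sqrt J) ^ (3 * Q - 1)) :=
    le_mul_of_one_le_right (by positivity) hA
  calc _ ≤ (j₀ : ℝ) ^ (2 * Q) * (J * (Real.sqrt J) ^ (3 * Q - 1)) + J * (K₂ * (Real.sqrt J) ^ (3 * Q - 1)) :=
        add_le_add hC hB
    _ = _ := by ring

end Pool.Agent.W395.LV
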